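import Pool.Agent.N661.BR.Stm2
import Pool.Agent.N661.BR.Base
import Pool.Agent.R989.Wvm
import Pool.Agent.TH294.RG.Gen
import Pool.Agent.N426.BRQUART

/-!
# Project BR (MP_6b977f_mp), part BR/NUL
-/

set_option autoImplicit false
open MeasureTheory Filter Topology Complex ProbabilityTheory
open scoped ContDiff ENNReal

namespace Pool.Agent.N344.BRNUL

open Pool.Agent.N661.BR
open Pool.Agent.W745.RW (lap dx dy TF Dp Dm W Sys Sol eps)
open Pool.Agent.R989.Erg (inv sh V subseq dense_TF inv_le F_meas)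
open Pool.Agent.R989.Asm (Wv XW AXW X4 pt ind XW_meas AXW_meas X4_meas)
open Pool.Agent.TH294.RG (RawG AG WG ML MZ cc GG')
open Pool.Agent.TH294.RS (DP ww wn F4 dd)
open Pool.Agent.Y265.RW (sy rr)

noncomputable section

/-! ### scaling of the derivatives -/

theorem fd_sc (g : ℂ → ℂ) (t : ℝ) (ht : t ≠ 0) (z v : ℂ) :
    fderiv ℝ (fun z => g ((t : ℂ) * z)) z v = (t : ℂ) * fderiv ℝ g ((t : ℂ) * z) v := by
  have e : (fun z : ℂ => g ((t : ℂ) * z)) =
      g ∘ (ContinuousLinearEquiv.smulLeft (Units.mk0 t ht) : ℂ ≃L[ℝ] ℂ) := by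
    funext z
    rfl
  rw [e, ContinuousLinearEquiv.comp_right_fderiv]
  have e2 : (ContinuousLinearEquiv.smulLeft (Units.mk0 t ht) : ℂ ≃L[ℝ] ℂ) z = (t : ℂ) * z := rfl
  rw [e2]
  show fderiv ℝ g ((t : ℂ) * z) ((t : ℂ) * v) = _
  have h := (fderiv ℝ g ((t : ℂ) * z)).map_smul t v
  rw [Complex.real_smul, Complex.real_smul] at h
  exact h

theorem Dp_sc (g : ℂ → ℂ) (t : ℝ) (ht : 0 < t) :
    Dp (1 / t) (fun y => g ((t : ℂ) * y)) = fun y => Dp 1 g ((t : ℂ) * y) := by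
  funext z
  unfold Dp dx dy
  rw [fd_sc g t ht.ne', fd_sc g t ht.ne']
  have h4 : ((t : ℝ) : ℂ) ≠ 0 := by exact_mod_cast ht.ne'
  push_cast
  field_simp

theorem Dm_sc (g : ℂ → ℂ) (t : ℝ) (ht : 0 < t) :
    Dm (1 / t) (fun y => g ((t : ℂ) * y)) = fun y => Dm 1 g ((t : ℂ) * y) := by
  funext z
  unfold Dm dx dy
  rw [fd_sc g t ht.ne', fd_sc g t ht.ne']
  have h4 : ((t : ℝ) : ℂ) ≠ 0 := by exact_mod_cast ht.ne'
  push_cast
  field_simp

theorem Dpk_sc (t : ℝ) (ht : 0 < t) (k : ℕ) : ∀ g : ℂ → ℂ,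
    (Dp (1 / t))^[k] (fun y => g ((t : ℂ) * y)) = fun y => (Dp 1)^[k] g ((t : ℂ) * y) := by
  induction k with
  | zero => intro g; rfl
  | succ k ih => intro g; rw [Function.iterate_succ_apply, Dp_sc g t ht, ih,
      Function.iterate_succ_apply]

/-- the approximate ladder system of the dilations -/
theorem ww_W (f : MW) (t : ℕ → ℝ) (ht : ∀ n, 0 < t n) (k : ℤ) (n : ℕ) (z : ℂ) :
    ww (fun _ => 1) (fun n => 1 / t n) (fun n z => ((Pool.Agent.R989.Det.du f t n z : ℝ) : ℂ)) k n z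
      = W 1 f k ((t n : ℂ) * z) := by
  have hD : ∀ h : ℝ, DP (fun _ => 1) h = Dp h := by
    intro h
    funext g w
    simp only [DP, dd, Dp, Complex.ofReal_one, one_mul]
  have key : ∀ k : ℕ, wn (fun _ => 1) (fun n => 1 / t n)
      (fun n z => ((Pool.Agent.R989.Det.du f t n z : ℝ) : ℂ)) k n z =
      W 1 f (k : ℤ) ((t n : ℂ) * z) := by
    intro k
    unfold wn
    rw [hD]
    exact congrFun (Dpk_sc (t n) (ht n) k (fun y => ((f y : ℝ) : ℂ))) z
  cases k with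
  | ofNat k => exact key k
  | negSucc k =>
    show (-1) ^ (k + 1) * (starRingEnd ℂ) (wn (fun _ => 1) (fun n => 1 / t n)
      (fun n z => ((Pool.Agent.R989.Det.du f t n z : ℝ) : ℂ)) (k + 1) n z) = _
    rw [key, conj_W, Int.natAbs_natCast, ← mul_assoc, ← mul_pow, neg_one_mul, neg_neg, one_pow,
      one_mul]
    rfl


/-! ### the deterministic limit -/

/-- the two point limits -/
def Mk (m : ℝ) (ν : Measure ℝ) (k : ℕ) (_ : ℂ) : ℂ :=
  (m : ℂ) * ∫ α, Pool.Agent.Results.MP_6b977f_mp.FourPointFunctions.sym α ^ k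
    ∂(Pool.Agent.R989.Det.sm ν)

section det
variable {f : ℂ → ℝ} {t : ℕ → ℝ} {m : ℝ} {ν : Measure ℝ} [IsProbabilityMeasure ν]

theorem raw (H : Pool.Agent.R989.Det.Dat f t m ν) :
    RawG Set.univ (fun _ => 1) (fun n => 1 / t n) (Pool.Agent.R989.Det.du f t) (Mk m ν) := by
  refine ⟨fun n => div_pos one_pos (H.tp n), Pool.Agent.R989.Det.hh H, contDiffOn_const,
    fun _ _ => one_pos, fun n => (Pool.Agent.R989.Det.du_sm H n).contDiffOn, fun n z _ => ?_,
    fun φ hφ k => ?_⟩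
  · have h1 := Pool.Agent.R989.Det.du_eq H n z
    have h3 := (H.tp n).ne'
    have h4 : lap (Pool.Agent.R989.Det.du f t n) z =
        -((t n) ^ 2 * Pool.Agent.R989.Det.du f t n z) := by linarith
    rw [h4]
    field_simp
    ring
  · refine (Pool.Agent.R989.Det.hsc H φ hφ k).congr fun n => ?_
    have hD : Pool.Agent.Results.MP_6b977f_mp.FourPointFunctions.D ((t n) ^ 2) =
        DP (fun _ => 1) (1 / t n) := by
      funext g w
      simp only [Pool.Agent.Results.MP_6b977f_mp.FourPointFunctions.D, DP, dd, Complex.ofReal_one,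
        one_mul, Real.sqrt_sq (H.tp n).le]
    rw [hD]

theorem ag (H : Pool.Agent.R989.Det.Dat f t m ν) :
    AG Set.univ (fun _ => 1) (fun n => 1 / t n) (ww (fun _ => 1) (fun n => 1 / t n)
      (fun n z => ((Pool.Agent.R989.Det.du f t n z : ℝ) : ℂ))) (Mk m ν) := by
  refine (raw H).as isOpen_univ (fun k => ?_) (fun z => ?_) (fun K hK _ => ?_)
  · exact ML.smooth continuousOn_const
  · unfold Mk
    simp
  · obtain ⟨r, hr⟩ := hK.isBounded.subset_closedBall (0 : ℂ)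
    obtain ⟨N, hN⟩ := exists_nat_ge r
    obtain ⟨C, hC⟩ := H.bd N
    refine ⟨C, hC.mono fun n hn => le_trans ?_ hn⟩
    refine setIntegral_mono_set ?_ ?_ ?_
    · exact ((Pool.Agent.R989.Det.du_sm H n).continuous.pow 4).continuousOn.integrableOn_compact
        (isCompact_closedBall _ _)
    · exact Eventually.of_forall fun z => by
        show 0 ≤ Pool.Agent.R989.Det.du f t n z ^ 4
        positivity
    · exact (hr.trans (Metric.closedBall_subset_closedBall hN)).eventuallyLE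

/-- Fourier coefficients -/
def ck (ν : Measure ℝ) (k : ℕ) : ℂ :=
  ∫ α, Pool.Agent.Results.MP_6b977f_mp.FourPointFunctions.sym α ^ k ∂(Pool.Agent.R989.Det.sm ν)

/-- the second moments -/
def Ac (ν : Measure ℝ) (k : ℤ) : ℝ := ∫ p : ℝ × ℝ, Real.cos ((k : ℝ) * (p.1 - p.2)) ∂(ν.prod ν)

theorem sym_cont : Continuous Pool.Agent.Results.MP_6b977f_mp.FourPointFunctions.sym := by
  unfold Pool.Agent.Results.MP_6b977f_mp.FourPointFunctions.sym
  fun_prop

theorem ck_eq (k : ℕ) (hk : Even k) : ck ν k =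
    Pool.Agent.TH294.RG.cm Pool.Agent.TH294.RG.ea ν k := by
  unfold ck Pool.Agent.TH294.RG.cm
  have h0 := Pool.Agent.R989.Det.sm_int ν
    (f := fun α => Pool.Agent.Results.MP_6b977f_mp.FourPointFunctions.sym α ^ k)
    (sym_cont.pow k) ⟨1, fun α => by
      show ‖Pool.Agent.TH294.RG.ea α ^ k‖ ≤ 1
      rw [norm_pow, Pool.Agent.TH294.RG.ea_norm, one_pow]⟩
  rw [h0]
  refine integral_congr_ae (Eventually.of_forall fun α => ?_)
  have e : Pool.Agent.Results.MP_6b977f_mp.FourPointFunctions.sym (α + Real.pi) =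
      -Pool.Agent.Results.MP_6b977f_mp.FourPointFunctions.sym α := by
    unfold Pool.Agent.Results.MP_6b977f_mp.FourPointFunctions.sym
    have h1 : -((α + Real.pi : ℝ) : ℂ) * I = -(α : ℂ) * I - Real.pi * I := by push_cast; ring
    rw [h1, Complex.exp_sub, Complex.exp_pi_mul_I]
    ring
  simp only
  rw [e, hk.neg_pow]
  show (Pool.Agent.TH294.RG.ea α ^ k + Pool.Agent.TH294.RG.ea α ^ k) / 2 = _
  ring

theorem qq_cos (k : ℕ) (p : ℝ × ℝ) : Pool.Agent.TH294.RG.qq Pool.Agent.TH294.RG.ea k p =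
    Real.cos ((k : ℝ) * (p.1 - p.2)) := by
  simp only [Pool.Agent.TH294.RG.qq, Pool.Agent.TH294.RG.ea]
  have h1 : (starRingEnd ℂ) (I * Complex.exp (-(p.2 : ℂ) * I)) =
      -I * Complex.exp ((p.2 : ℂ) * I) := by
    rw [map_mul, conj_I, ← Complex.exp_conj, map_mul, map_neg, conj_ofReal, conj_I]
    congr 2; ring
  rw [h1]
  have h2 : I * Complex.exp (-(p.1 : ℂ) * I) * (-I * Complex.exp ((p.2 : ℂ) * I)) =
      Complex.exp (((p.2 - p.1 : ℝ) : ℂ) * I) := by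
    have h3 : ((p.2 - p.1 : ℝ) : ℂ) * I = -(p.1 : ℂ) * I + (p.2 : ℂ) * I := by push_cast; ring
    rw [h3, Complex.exp_add]
    linear_combination (-(Complex.exp (-(p.1 : ℂ) * I) * Complex.exp ((p.2 : ℂ) * I))) * I_sq
  rw [h2, ← Complex.exp_nat_mul]
  have h4 : (k : ℂ) * (((p.2 - p.1 : ℝ) : ℂ) * I) = (((k : ℝ) * (p.2 - p.1) : ℝ) : ℂ) * I := by
    push_cast; ring
  rw [h4, Complex.exp_ofReal_mul_I_re, ← Real.cos_neg]
  congr 1
  ring

theorem ck_sq (k : ℤ) (hk : Even k) : ‖ck ν k.natAbs‖ ^ 2 = Ac ν k := by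
  rw [ck_eq _ (Int.natAbs_even.2 hk), Pool.Agent.TH294.RG.cm_sq Pool.Agent.TH294.RG.ea_meas
    Pool.Agent.TH294.RG.ea_norm]
  unfold Ac
  congr 1
  funext p
  rw [qq_cos]
  rcases Int.natAbs_eq k with h | h
  · have h' : (k : ℝ) = (k.natAbs : ℝ) := by
      have := congrArg (fun x : ℤ => (x : ℝ)) h
      simpa only [Int.cast_natCast] using this
    rw [← h']
  · have h' : (k : ℝ) = -(k.natAbs : ℝ) := by
      have := congrArg (fun x : ℤ => (x : ℝ)) h
      simpa only [Int.cast_neg, Int.cast_natCast] using this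
    have h'' : (k.natAbs : ℝ) = -(k : ℝ) := by rw [h', neg_neg]
    rw [h'', neg_mul, Real.cos_neg]

theorem MZ_mul (k : ℤ) (hk : Even k) (z : ℂ) :
    MZ (Mk m ν) k z * MZ (Mk m ν) (-k) z = ((m ^ 2 * Ac ν k : ℝ) : ℂ) := by
  have key : Mk m ν k.natAbs z * (starRingEnd ℂ) (Mk m ν k.natAbs z) =
      ((m ^ 2 * Ac ν k : ℝ) : ℂ) := by
    rw [← ck_sq k hk, Complex.mul_conj, Complex.normSq_eq_norm_sq]
    congr 1
    show ‖(m : ℂ) * ck ν k.natAbs‖ ^ 2 = _
    rw [norm_mul, Complex.norm_real, mul_pow, Real.norm_eq_abs, sq_abs]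
  have he : ((-1 : ℂ)) ^ k.natAbs = 1 := (Int.natAbs_even.2 hk).neg_one_pow
  rcases lt_trichotomy k 0 with h | h | h
  · unfold MZ
    rw [if_neg (not_le.2 h), if_pos (by omega), Int.natAbs_neg, he, one_mul, mul_comm]
    exact key
  · subst h
    unfold MZ
    rw [if_pos le_rfl, if_pos (by norm_num)]
    rw [← key]
    congr 1
    unfold Mk
    simp
  · unfold MZ
    rw [if_pos h.le, if_neg (by omega), Int.natAbs_neg, he, one_mul]
    exact key

theorem Ac_zero : Ac ν 0 = 1 := by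
  unfold Ac
  simp

theorem GG'_eq (i j : ℤ) (hi : Even i) (hj : Even j) (z : ℂ) :
    GG' (Mk m ν) i (2 * 0 - i) (-j) (j - 2 * 0) z =
      ((m ^ 2 * (1 + Ac ν (i - j) + Ac ν (i + j)) : ℝ) : ℂ) := by
  have hcc : ∀ a b : ℤ, Even a → Even b → cc (Mk m ν) a b z = MZ (Mk m ν) (a + b) z := by
    intro a b ha hb
    unfold cc
    rw [if_pos (ha.add hb), (Int.natAbs_even.2 ha).neg_one_pow, one_mul]
  have e1 : (2 * 0 - i : ℤ) = -i := by ring
  have e2 : (j - 2 * 0 : ℤ) = j := by ring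
  unfold GG'
  rw [e1, e2, hcc _ _ hi hi.neg, hcc _ _ hj.neg hj, hcc _ _ hi hj.neg, hcc _ _ hi.neg hj,
    hcc _ _ hi hj, hcc _ _ hi.neg hj.neg]
  have a1 := MZ_mul (m := m) (ν := ν) 0 (by decide) z
  have a2 := MZ_mul (m := m) (ν := ν) (i - j) (hi.sub hj) z
  have a3 := MZ_mul (m := m) (ν := ν) (i + j) (hi.add hj) z
  rw [Ac_zero, neg_zero] at a1
  have e3 : i + -i = 0 := by ring
  have e4 : -j + j = 0 := by ring
  have e5 : i + -j = i - j := by ring
  have e6 : -i + j = -(i - j) := by ring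
  have e7 : -i + -j = -(i + j) := by ring
  rw [e3, e4, e5, e6, e7, a1, a2, a3]
  push_cast
  ring

theorem bd_int {g : ℝ × ℝ → ℝ} (hg : Continuous g) (C : ℝ) (hC : ∀ p, |g p| ≤ C) :
    Integrable g (ν.prod ν) :=
  Integrable.mono' (integrable_const C) hg.aestronglyMeasurable
    (Eventually.of_forall hC)

theorem sum_GG' (v : ℤ →₀ ℝ) (hv : EZ v) (z : ℂ) : ∑ i ∈ v.support, ∑ j ∈ v.support,
    ((v i : ℂ) * (v j : ℂ)) * GG' (Mk m ν) i (2 * 0 - i) (-j) (j - 2 * 0) z =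
      ((m ^ 2 * (2 * ∫ p : ℝ × ℝ, CP v (p.1 - p.2) ^ 2 ∂(ν.prod ν)) : ℝ) : ℂ) := by
  have e1 : ∑ i ∈ v.support, ∑ j ∈ v.support,
      ((v i : ℂ) * (v j : ℂ)) * GG' (Mk m ν) i (2 * 0 - i) (-j) (j - 2 * 0) z =
      ((∑ i ∈ v.support, ∑ j ∈ v.support, (v i * v j) *
        (m ^ 2 * (1 + Ac ν (i - j) + Ac ν (i + j))) : ℝ) : ℂ) := by
    rw [Complex.ofReal_sum]
    refine Finset.sum_congr rfl fun i hi => ?_
    rw [Complex.ofReal_sum]
    refine Finset.sum_congr rfl fun j hj => ?_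
    rw [GG'_eq i j (hv.1 i hi) (hv.1 j hj)]
    push_cast
    ring
  rw [e1]
  congr 1
  have c1 : ∀ i j : ℤ, Integrable (fun p : ℝ × ℝ => Real.cos ((i : ℝ) * (p.1 - p.2)) *
      Real.cos ((j : ℝ) * (p.1 - p.2))) (ν.prod ν) := by
    intro i j
    refine bd_int (by fun_prop) 1 fun p => ?_
    rw [abs_mul]
    exact mul_le_one₀ (Real.abs_cos_le_one _) (abs_nonneg _) (Real.abs_cos_le_one _)
  have c0 : ∀ i : ℤ, Integrable (fun p : ℝ × ℝ => Real.cos ((i : ℝ) * (p.1 - p.2)))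
      (ν.prod ν) := fun i => bd_int (by fun_prop) 1 fun p => Real.abs_cos_le_one _
  have e2 : ∀ i j : ℤ, Ac ν (i - j) + Ac ν (i + j) =
      2 * ∫ p : ℝ × ℝ, Real.cos ((i : ℝ) * (p.1 - p.2)) *
        Real.cos ((j : ℝ) * (p.1 - p.2)) ∂(ν.prod ν) := by
    intro i j
    unfold Ac
    rw [← integral_add (c0 _) (c0 _), ← integral_const_mul]
    congr 1
    funext p
    push_cast
    rw [sub_mul, add_mul, Real.cos_sub, Real.cos_add]
    ring
  have e3 : ∫ p : ℝ × ℝ, CP v (p.1 - p.2) ^ 2 ∂(ν.prod ν) =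
      ∑ i ∈ v.support, ∑ j ∈ v.support, (v i * v j) *
        ∫ p : ℝ × ℝ, Real.cos ((i : ℝ) * (p.1 - p.2)) *
          Real.cos ((j : ℝ) * (p.1 - p.2)) ∂(ν.prod ν) := by
    have e4 : ∀ p : ℝ × ℝ, CP v (p.1 - p.2) ^ 2 = ∑ i ∈ v.support, ∑ j ∈ v.support, (v i * v j) *
        (Real.cos ((i : ℝ) * (p.1 - p.2)) * Real.cos ((j : ℝ) * (p.1 - p.2))) := by
      intro p
      unfold CP
      rw [sq, Finset.sum_mul_sum]
      exact Finset.sum_congr rfl fun i _ => Finset.sum_congr rfl fun j _ => by ring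
    simp only [e4]
    rw [integral_finsetSum _ fun i _ => integrable_finsetSum _ fun j _ => (c1 i j).const_mul _]
    refine Finset.sum_congr rfl fun i _ => ?_
    rw [integral_finsetSum _ fun j _ => (c1 i j).const_mul _]
    exact Finset.sum_congr rfl fun j _ => integral_const_mul _ _
  have e5 : ∑ i ∈ v.support, ∑ j ∈ v.support, (v i * v j) *
        (m ^ 2 * (1 + Ac ν (i - j) + Ac ν (i + j))) =
      m ^ 2 * ((∑ i ∈ v.support, v i) * ∑ j ∈ v.support, v j) +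
        m ^ 2 * (2 * ∑ i ∈ v.support, ∑ j ∈ v.support, (v i * v j) *
        ∫ p : ℝ × ℝ, Real.cos ((i : ℝ) * (p.1 - p.2)) *
          Real.cos ((j : ℝ) * (p.1 - p.2)) ∂(ν.prod ν)) := by
    rw [Finset.sum_mul_sum, Finset.mul_sum, Finset.mul_sum, Finset.mul_sum,
      ← Finset.sum_add_distrib]
    refine Finset.sum_congr rfl fun i _ => ?_
    rw [Finset.mul_sum, Finset.mul_sum, Finset.mul_sum, ← Finset.sum_add_distrib]
    refine Finset.sum_congr rfl fun j _ => ?_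
    rw [add_assoc, e2]
    ring
  rw [e5, hv.2, e3]
  ring

end det

theorem EZ_Bal {v : ℤ →₀ ℝ} (hv : EZ v) : Bal v := by
  refine ⟨hv.2, ?_⟩
  rw [← hv.2]
  refine Finset.sum_congr rfl fun j hj => ?_
  rw [(Int.natAbs_even.2 (hv.1 j hj)).neg_one_pow, one_mul]

theorem det (f : MW) {t : ℕ → ℝ} {m : ℝ} {ν : Measure ℝ} [IsProbabilityMeasure ν]
    (H : Pool.Agent.R989.Det.Dat f t m ν) (v : ℤ →₀ ℝ) (hv : EZ v) {φ : ℂ → ℝ}
    (hφ : TF Set.univ φ) :
    Tendsto (fun n => ∫ z, φ z * ‖QV v 0 1 f ((t n : ℂ) * z)‖ ^ 2) atTop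
      (𝓝 ((∫ z, φ z) * (m ^ 2 * (2 * ∫ p : ℝ × ℝ, CP v (p.1 - p.2) ^ 2 ∂(ν.prod ν))))) := by
  set w : ℤ → ℕ → ℂ → ℂ := ww (fun _ => 1) (fun n => 1 / t n)
      (fun n z => ((Pool.Agent.R989.Det.du f t n z : ℝ) : ℂ)) with hw
  have A := ag H
  have hco : ∀ i j k l n, Continuous (F4 w i j k l n) := fun i j k l n => by
    have := fun k => continuousOn_univ.1 ((A.bd k).co n)
    exact (((this i).mul (this j)).mul (this k)).mul (this l)
  have hWW : ∀ i j k l n z, F4 w i j k l n z = W 1 f i ((t n : ℂ) * z) *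
      W 1 f j ((t n : ℂ) * z) * W 1 f k ((t n : ℂ) * z) * W 1 f l ((t n : ℂ) * z) := by
    intro i j k l n z
    unfold F4
    rw [hw, ww_W f t H.tp, ww_W f t H.tp, ww_W f t H.tp, ww_W f t H.tp]
  have hint : ∀ i j k l n, Integrable (fun z => (φ z : ℂ) * F4 w i j k l n z) :=
    fun i j k l n => Pool.Agent.TH294.RS.TF.cint hφ (hco i j k l n).continuousOn
  have e4 : ∀ n, ((∫ z, φ z * ‖QV v 0 1 f ((t n : ℂ) * z)‖ ^ 2 : ℝ) : ℂ) =
      ∑ i ∈ v.support, ∑ j ∈ v.support, ((v i : ℂ) * (v j : ℂ)) *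
        ∫ z, (φ z : ℂ) * F4 w i (2 * 0 - i) (-j) (j - 2 * 0) n z := by
    intro n
    have e1 : ((∫ z, φ z * ‖QV v 0 1 f ((t n : ℂ) * z)‖ ^ 2 : ℝ) : ℂ) =
        ∫ z, ∑ i ∈ v.support, ∑ j ∈ v.support, ((v i : ℂ) * (v j : ℂ)) *
          ((φ z : ℂ) * F4 w i (2 * 0 - i) (-j) (j - 2 * 0) n z) := by
      rw [← integral_complex_ofReal]
      congr 1
      funext z
      rw [Complex.ofReal_mul, Pool.Agent.N426.BRQUART.normsq_QV isOpen_univ (sol f) v 0
        (Set.mem_univ _), Finset.mul_sum]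
      refine Finset.sum_congr rfl fun i _ => ?_
      rw [Finset.mul_sum]
      refine Finset.sum_congr rfl fun j _ => ?_
      rw [hWW]
      ring
    rw [e1, integral_finsetSum _ fun i _ => integrable_finsetSum _ fun j _ =>
      (hint _ _ _ _ n).const_mul _]
    refine Finset.sum_congr rfl fun i _ => ?_
    rw [integral_finsetSum _ fun j _ => (hint _ _ _ _ n).const_mul _]
    exact Finset.sum_congr rfl fun j _ => integral_const_mul _ _
  have h1 : Tendsto (fun n => ∑ i ∈ v.support, ∑ j ∈ v.support, ((v i : ℂ) * (v j : ℂ)) *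
      (((∫ z, (φ z : ℂ) * F4 w i (2 * 0 - i) (-j) (j - 2 * 0) n z) -
        ∫ z, (φ z : ℂ) * GG' (Mk m ν) i (2 * 0 - i) (-j) (j - 2 * 0) z) -
        eps i (2 * 0 - i) (-j) (j - 2 * 0) * ((∫ z, (φ z : ℂ) * F4 w 0 0 0 0 n z) -
          ∫ z, (φ z : ℂ) * GG' (Mk m ν) 0 0 0 0 z))) atTop
      (𝓝 (∑ i ∈ v.support, ∑ j ∈ v.support, ((v i : ℂ) * (v j : ℂ)) * 0)) :=
    tendsto_finsetSum _ fun i _ => tendsto_finsetSum _ fun j _ =>
      (A.mom4 isOpen_univ hφ i (2 * 0 - i) (-j) (j - 2 * 0) (by ring)).const_mul _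
  have h0 : (∑ i ∈ v.support, ∑ j ∈ v.support, ((v i : ℂ) * (v j : ℂ)) * 0) = 0 := by simp
  rw [h0] at h1
  have hGc : ∀ i j k l, ∫ z, (φ z : ℂ) * GG' (Mk m ν) i j k l z =
      ((∫ z, φ z : ℝ) : ℂ) * GG' (Mk m ν) i j k l 0 := by
    intro i j k l
    have e : ∀ z, GG' (Mk m ν) i j k l z = GG' (Mk m ν) i j k l 0 := fun z => rfl
    simp only [e]
    rw [integral_mul_const, integral_complex_ofReal]
  have h2 : ∀ n, (∑ i ∈ v.support, ∑ j ∈ v.support, ((v i : ℂ) * (v j : ℂ)) *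
      (((∫ z, (φ z : ℂ) * F4 w i (2 * 0 - i) (-j) (j - 2 * 0) n z) -
        ∫ z, (φ z : ℂ) * GG' (Mk m ν) i (2 * 0 - i) (-j) (j - 2 * 0) z) -
        eps i (2 * 0 - i) (-j) (j - 2 * 0) * ((∫ z, (φ z : ℂ) * F4 w 0 0 0 0 n z) -
          ∫ z, (φ z : ℂ) * GG' (Mk m ν) 0 0 0 0 z))) =
      ((∫ z, φ z * ‖QV v 0 1 f ((t n : ℂ) * z)‖ ^ 2 : ℝ) : ℂ) -
        (((∫ z, φ z) * (m ^ 2 * (2 * ∫ p : ℝ × ℝ, CP v (p.1 - p.2) ^ 2 ∂(ν.prod ν))) : ℝ) : ℂ)
        := by
    intro n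
    have s1 := sum_GG' (m := m) (ν := ν) v hv 0
    have s2 := Pool.Agent.N426.BRQUART.sum_eps (EZ_Bal hv) 0
    set X : ℂ := ((∫ z, (φ z : ℂ) * F4 w 0 0 0 0 n z) -
          ∫ z, (φ z : ℂ) * GG' (Mk m ν) 0 0 0 0 z) with hX
    set J : ℂ := ((∫ z, φ z : ℝ) : ℂ) with hJ
    have s4 : ∑ i ∈ v.support, ∑ j ∈ v.support, ((v i : ℂ) * (v j : ℂ)) *
        (((∫ z, (φ z : ℂ) * F4 w i (2 * 0 - i) (-j) (j - 2 * 0) n z) -
          ∫ z, (φ z : ℂ) * GG' (Mk m ν) i (2 * 0 - i) (-j) (j - 2 * 0) z) -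
          eps i (2 * 0 - i) (-j) (j - 2 * 0) * X) =
        (∑ i ∈ v.support, ∑ j ∈ v.support, (((v i : ℂ) * (v j : ℂ)) *
          (∫ z, (φ z : ℂ) * F4 w i (2 * 0 - i) (-j) (j - 2 * 0) n z) -
          J * (((v i : ℂ) * (v j : ℂ)) * GG' (Mk m ν) i (2 * 0 - i) (-j) (j - 2 * 0) 0))) -
        (∑ i ∈ v.support, ∑ j ∈ v.support,
          ((v i : ℂ) * (v j : ℂ)) * eps i (2 * 0 - i) (-j) (j - 2 * 0)) * X := by
      rw [Finset.sum_mul, ← Finset.sum_sub_distrib]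
      refine Finset.sum_congr rfl fun i _ => ?_
      rw [Finset.sum_mul, ← Finset.sum_sub_distrib]
      refine Finset.sum_congr rfl fun j _ => ?_
      rw [hGc]
      ring
    rw [s4, s2, zero_mul, sub_zero, e4 n, Complex.ofReal_mul, ← s1, Finset.mul_sum,
      ← Finset.sum_sub_distrib]
    refine Finset.sum_congr rfl fun i _ => ?_
    rw [Finset.mul_sum, ← Finset.sum_sub_distrib]
  have h3 := h1.congr h2
  have h4 := (Complex.continuous_re.tendsto _).comp h3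
  have h5 : Tendsto (fun n => (∫ z, φ z * ‖QV v 0 1 f ((t n : ℂ) * z)‖ ^ 2) -
      (∫ z, φ z) * (m ^ 2 * (2 * ∫ p : ℝ × ℝ, CP v (p.1 - p.2) ^ 2 ∂(ν.prod ν)))) atTop (𝓝 0) := by
    refine h4.congr fun n => ?_
    simp only [Function.comp_apply, Complex.sub_re, Complex.ofReal_re]
  have h6 := h5.add_const ((∫ z, φ z) * (m ^ 2 *
    (2 * ∫ p : ℝ × ℝ, CP v (p.1 - p.2) ^ 2 ∂(ν.prod ν))))
  rw [zero_add] at h6
  refine h6.congr fun n => ?_
  ring

/-! ### the stochastic part -/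

/-- the path of a wave -/
def co (f : MW) : ℂ → ℝ := f

theorem co_meas : Measurable co := measurable_subtype_coe

theorem wv {μ : Measure MW} (hs : IsStationary μ) (h4 : Integrable (fun f : MW => f 0 ^ 4) μ) :
    Wv μ co := by
  refine ⟨fun y => meas_eval y, fun f => f.2.1, fun f y => f.2.2 y, fun x => ?_, h4⟩
  have e : (fun (s : MW) (y : ℂ) => co s (y + x)) = co ∘ shift x := rfl
  rw [e, ← Measure.map_map co_meas (meas_shift x), hs x]

theorem erg_const {μ : Measure MW} [IsProbabilityMeasure μ] (he : IsErgodic μ)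
    (x : (ℂ → ℝ) → ℝ) (hxi : Integrable x (μ.map co)) :
    (μ.map co)[x | inv (μ.map co)] =ᵐ[μ.map co] fun _ => ∫ q, x q ∂(μ.map co) := by
  have hlp : IsProbabilityMeasure (μ.map co) :=
    Measure.isProbabilityMeasure_map co_meas.aemeasurable
  refine (ae_eq_condExp_of_forall_setIntegral_eq (inv_le _) hxi
    (fun s _ hs => integrableOn_const hs.ne) (fun s hms hs => ?_)
      stronglyMeasurable_const.aestronglyMeasurable).symm
  have hm : MeasurableSet s := hms.1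
  have h01 : μ (co ⁻¹' s) = 0 ∨ μ (co ⁻¹' s) = 1 := by
    refine he _ (co_meas hm) fun x => ?_
    have h1 := hms.2 x
    have h2 : MeasurePreserving co μ (μ.map co) := ⟨co_meas, rfl⟩
    exact h2.quasiMeasurePreserving.preimage_ae_eq h1
  have h2 : (μ.map co) s = 0 ∨ (μ.map co) s = 1 := by rwa [Measure.map_apply co_meas hm]
  rcases h2 with h | h
  · rw [Measure.restrict_eq_zero.2 h]
    simp
  · have h3 : ∀ᵐ q ∂(μ.map co), q ∈ s := by
      have h4 := (prob_compl_eq_zero_iff hm).2 h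
      exact measure_eq_zero_iff_ae_notMem.1 h4 |>.mono fun q hq => not_not.1 hq
    rw [Measure.restrict_eq_self_of_ae_mem h3]
    simp

theorem exists_x (v : ℤ →₀ ℝ) : ∃ x : (ℂ → ℝ) → ℝ, Measurable x ∧
    ∀ f : MW, x (co f) = ‖QV v 0 1 f 0‖ ^ 2 := by
  have h : Measurable (fun f : MW => ‖QV v 0 1 f 0‖ ^ 2) := by
    unfold QV
    refine Measurable.pow_const (Measurable.norm ?_) 2
    exact Finset.measurable_sum _ fun j _ => ((meas_W _ 0).mul (meas_W _ 0)).const_mul _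
  obtain ⟨x, hx, hxe⟩ := Measurable.exists_eq_measurable_comp (f := co) h
  exact ⟨x, hx, fun f => (congrFun hxe f).symm⟩

theorem cov_neg' (ν : Measure ℝ) (w : ℂ) :
    Pool.Agent.N661.BR.cov ν (0 - w) =
      Pool.Agent.Results.MP_6b977f_mp.FourPointFunctions.cov ν w := by
  unfold Pool.Agent.N661.BR.cov Pool.Agent.Results.MP_6b977f_mp.FourPointFunctions.cov
  congr 1
  funext α
  rw [← Real.cos_neg]
  congr 1
  simp
  ring

/-- the index type of all the averages -/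
abbrev Ix := ((ℕ × ℕ) × (ℚ × ℚ)) ⊕ ((ℕ × (ℚ × ℚ)) ⊕ (ℕ ⊕ Unit))

/-- weights -/
def wt (T : ℕ × ℕ → ℂ → ℝ) (φ0 : ℂ → ℝ) : Ix → ℂ → ℝ
  | Sum.inl p => T p.1
  | Sum.inr (Sum.inl p) => ind p.1
  | Sum.inr (Sum.inr (Sum.inl N)) => ind N
  | Sum.inr (Sum.inr (Sum.inr _)) => φ0

/-- functionals -/
def fn (x : (ℂ → ℝ) → ℝ) : Ix → (ℂ → ℝ) → ℝ
  | Sum.inl p => XW (pt p.2)
  | Sum.inr (Sum.inl p) => AXW (pt p.2)
  | Sum.inr (Sum.inr (Sum.inl _)) => X4
  | Sum.inr (Sum.inr (Sum.inr _)) => x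

theorem QV_shift (v : ℤ →₀ ℝ) (x : ℂ) (f : MW) : QV v 0 1 (shift x f) 0 = QV v 0 1 f x := by
  unfold QV
  refine Finset.sum_congr rfl fun j _ => ?_
  rw [W_shift, W_shift, zero_add]

theorem NUL : S_NUL := by
  intro μ hμ hst her h4 m ν hν hcov v hv hQ
  have H : Wv μ co := wv hst h4
  obtain ⟨x, hx, hxe⟩ := exists_x v
  have hlp : IsProbabilityMeasure (μ.map co) := Pool.Agent.R989.Erg.law_prob H.joint
  have hxi : Integrable x (μ.map co) := by
    rw [integrable_map_measure hx.aestronglyMeasurable co_meas.aemeasurable]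
    exact hQ.congr (Eventually.of_forall fun f => (hxe f).symm)
  have hxI : ∫ q, x q ∂(μ.map co) = ∫ f : MW, ‖QV v 0 1 f 0‖ ^ 2 ∂μ := by
    rw [integral_map co_meas.aemeasurable hx.aestronglyMeasurable]
    exact integral_congr_ae (Eventually.of_forall hxe)
  obtain ⟨T, hT, hdense⟩ := dense_TF
  -- a fixed test function
  obtain ⟨φ0, hφ0, hφpos⟩ : ∃ φ0 : ℂ → ℝ, TF Set.univ φ0 ∧ 0 < ∫ z, φ0 z := by
    let b : ContDiffBump (0 : ℂ) := ⟨1 / 2, 1, by norm_num, by norm_num⟩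
    exact ⟨fun z => b z, ⟨b.contDiff, b.hasCompactSupport, Set.subset_univ _⟩, b.integral_pos⟩
  have hTm : ∀ i, Measurable (T i) := fun i => (hT i).1.continuous.measurable
  have hTi : ∀ i, Integrable (T i) := fun i =>
    (hT i).1.continuous.integrable_of_hasCompactSupport (hT i).2.1
  have wm : ∀ i, Measurable (wt T φ0 i) := by
    rintro (p | p | N | b)
    · exact hTm p.1
    · exact Pool.Agent.R989.Asm.ind_meas p.1
    · exact Pool.Agent.R989.Asm.ind_meas N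
    · exact hφ0.1.continuous.measurable
  have wi : ∀ i, Integrable (wt T φ0 i) := by
    rintro (p | p | N | b)
    · exact hTi p.1
    · exact Pool.Agent.R989.Asm.ind_int p.1
    · exact Pool.Agent.R989.Asm.ind_int N
    · exact hφ0.1.continuous.integrable_of_hasCompactSupport hφ0.2.1
  have fm : ∀ i, Measurable (fn x i) := by
    rintro (p | p | N | b)
    · exact XW_meas _
    · exact AXW_meas _
    · exact X4_meas
    · exact hx
  have fi : ∀ i, Integrable (fn x i) (μ.map co) := by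
    rintro (p | p | N | b)
    · exact H.xw _
    · exact (H.xw _).abs
    · exact H.pow4 0
    · exact hxi
  obtain ⟨t, ht1, ht2, hsub⟩ := subseq (P := μ) H.mps (wt T φ0) wm wi (fn x) fm fi H.fld
  have hmp : MeasurePreserving co μ (μ.map co) := ⟨co_meas, rfl⟩
  have hce : ∀ᵐ f ∂μ, ∀ i : Ix, ((μ.map co)[fn x i | inv (μ.map co)]) (co f) =
      ∫ q, fn x i q ∂(μ.map co) := by
    rw [ae_all_iff]
    intro i
    exact hmp.quasiMeasurePreserving.ae (erg_const her (fn x i) (fi i))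
  obtain ⟨f, h1, h3⟩ := (hsub.and hce).exists
  have hfc : Continuous (co f) := (H.smooth f).continuous
  have c4 : ∀ N : ℕ, ∃ C : ℝ, ∀ᶠ n in atTop,
      ∫ z in Metric.closedBall (0 : ℂ) N, co f ((t n : ℂ) * z) ^ 4 ≤ C := by
    intro N
    have h6 := Pool.Agent.R989.Asm.lim_of_tendsto (h1 (Sum.inr (Sum.inr (Sum.inl N))))
    refine ⟨_, h6.mono fun n hn => le_trans (le_of_eq ?_) hn⟩
    show _ = V co (ind N) (t n) X4 f
    rw [Pool.Agent.R989.Asm.V_ind]
    refine setIntegral_congr_fun measurableSet_closedBall fun z _ => ?_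
    simp only [X4, sh, zero_add]
  have c2 : ∀ a : ℚ × ℚ, ∀ N : ℕ, ∃ C : ℝ, ∀ᶠ n in atTop,
      ∫ z in Metric.closedBall (0 : ℂ) N,
        |co f ((t n : ℂ) * z) * co f ((t n : ℂ) * z + pt a)| ≤ C := by
    intro a N
    have h6 := Pool.Agent.R989.Asm.lim_of_tendsto (h1 (Sum.inr (Sum.inl (N, a))))
    refine ⟨_, h6.mono fun n hn => le_trans (le_of_eq ?_) hn⟩
    show _ = V co (ind N) (t n) (AXW (pt a)) f
    rw [Pool.Agent.R989.Asm.V_ind]
    refine setIntegral_congr_fun measurableSet_closedBall fun z _ => ?_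
    simp only [AXW, sh, add_comm, add_zero]
  have hXW : ∀ w : ℂ, ∫ q, XW w q ∂(μ.map co) =
      m * Pool.Agent.Results.MP_6b977f_mp.FourPointFunctions.cov ν w := by
    intro w
    rw [integral_map co_meas.aemeasurable (XW_meas w).aestronglyMeasurable, ← cov_neg',
      ← hcov 0 w]
    rfl
  have D : Pool.Agent.R989.Det.Dat (co f) t m ν := by
    refine ⟨H.smooth f, H.eigen f, fun n => lt_of_lt_of_le one_pos (ht1 n), ht2, c4, ?_⟩
    intro φ hφ w' hw'
    obtain ⟨p, q, rfl⟩ := hw'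
    refine Pool.Agent.R989.Asm.two_ext hfc hT hdense _ _ (fun i => ?_) (c2 (p, q)) φ hφ
    have h6 := h1 (Sum.inl (i, (p, q)))
    have h7 : wt T φ0 (Sum.inl (i, (p, q))) = T i := rfl
    have h8 : fn x (Sum.inl (i, (p, q))) = XW (pt (p, q)) := rfl
    rw [h3, h7, h8, hXW] at h6
    refine h6.congr fun n => ?_
    unfold V
    refine integral_congr_ae (Eventually.of_forall fun z => ?_)
    simp only [XW, sh, pt, add_comm, add_zero]
  have hlim := det f D v hv hφ0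
  have hX := h1 (Sum.inr (Sum.inr (Sum.inr ())))
  rw [h3] at hX
  have hX' : Tendsto (fun n => ∫ z, φ0 z * ‖QV v 0 1 f ((t n : ℂ) * z)‖ ^ 2) atTop
      (𝓝 ((∫ z, φ0 z) * ∫ f : MW, ‖QV v 0 1 f 0‖ ^ 2 ∂μ)) := by
    rw [← hxI]
    refine Tendsto.congr (fun n => ?_) hX
    show V co φ0 (t n) x f = _
    unfold V
    refine integral_congr_ae (Eventually.of_forall fun z => ?_)
    have e : sh ((t n : ℂ) * z) (co f) = co (shift ((t n : ℂ) * z) f) := rfl
    simp only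
    rw [e, hxe, QV_shift]
  exact mul_left_cancel₀ hφpos.ne' (tendsto_nhds_unique hX' hlim)

end

end Pool.Agent.N344.BRNUL
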