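import Pool.Agent.N904.AP.Stm

set_option autoImplicit false

/-!
# AP/Tan: intersections with the real line, finite intersections, perfectness
-/

namespace Pool.Agent.N344.APTan

open Set Filter Topology Pool.Agent.N904.AP

lemma tt0 (x : Fin 4 → ℝ) : tt 0 x = x 1 + x 2 + x 3 - x 0 := by
  simp [tt, Fin.sum_univ_four]; ring

lemma QQ_eq (x : Fin 4 → ℝ) :
    QQ x = 2 * (x 0 * x 0 + x 1 * x 1 + x 2 * x 2 + x 3 * x 3)
      - (x 0 + x 1 + x 2 + x 3) * (x 0 + x 1 + x 2 + x 3) := by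
  simp [QQ, BB, Fin.sum_univ_four]

lemma disc (x : Fin 4 → ℝ) (h : QQ x = 1) :
    x 3 ^ 2 - (x 2 + x 3) * (x 1 + x 3) = (1 - tt 0 x ^ 2) / 4 := by
  rw [QQ_eq] at h
  rw [tt0]
  linarith

lemma mem_Cc0_coe (z : ℂ) : (z : OnePoint ℂ) ∈ Cc 0 ↔ z.im = 0 := by
  constructor
  · rintro (⟨h, -⟩ | ⟨w, h, hw⟩)
    · exact absurd h (OnePoint.coe_ne_infty z)
    · rw [OnePoint.coe_eq_coe] at h
      subst h
      simpa [eqn, bas] using hw
  · intro h
    exact Or.inr ⟨z, rfl, by simp [eqn, bas, h]⟩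

lemma infty_mem_Cc0 : (OnePoint.infty : OnePoint ℂ) ∈ Cc 0 := Or.inl ⟨rfl, by simp [bas]⟩

lemma coe_mem_circ (x : Fin 4 → ℝ) (z : ℂ) : (z : OnePoint ℂ) ∈ circ x ↔ eqn x z = 0 := by
  constructor
  · rintro (⟨h, -⟩ | ⟨w, h, hw⟩)
    · exact absurd h (OnePoint.coe_ne_infty z)
    · rw [OnePoint.coe_eq_coe] at h
      subst h; exact hw
  · intro h; exact Or.inr ⟨z, rfl, h⟩

lemma infty_mem_circ (x : Fin 4 → ℝ) :
    (OnePoint.infty : OnePoint ℂ) ∈ circ x ↔ x 2 + x 3 = 0 := by
  constructor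
  · rintro (⟨-, h⟩ | ⟨w, h, -⟩)
    · exact h
    · exact absurd h (OnePoint.infty_ne_coe w)
  · intro h; exact Or.inl ⟨rfl, h⟩

lemma eqn_real (x : Fin 4 → ℝ) (X : ℝ) :
    eqn x (X : ℂ) = (x 2 + x 3) * X ^ 2 - 2 * x 3 * X + (x 1 + x 3) := by
  simp [eqn]

theorem tan : StTan := by
  intro x hx
  have hd := disc x hx
  constructor
  · rintro ⟨p, ⟨hp1, hp2⟩, huniq⟩
    by_contra hne
    rcases lt_or_gt_of_ne hne with h | h
    · -- two points
      have hD : 0 < x 3 ^ 2 - (x 2 + x 3) * (x 1 + x 3) := by rw [hd]; linarith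
      have key : ∀ q₁ q₂ : OnePoint ℂ, q₁ ∈ circ x ∩ Cc 0 → q₂ ∈ circ x ∩ Cc 0 → q₁ = q₂ :=
        fun q₁ q₂ h1 h2 => (huniq q₁ h1).trans (huniq q₂ h2).symm
      by_cases ha : x 2 + x 3 = 0
      · have h3 : x 3 ≠ 0 := by
          intro h3; rw [ha, h3] at hD; norm_num at hD
        have h1 : (((x 1 + x 3) / (2 * x 3) : ℝ) : ℂ) = (((x 1 + x 3) / (2 * x 3) : ℝ) : ℂ) := rfl
        have hm : ((((x 1 + x 3) / (2 * x 3) : ℝ) : ℂ) : OnePoint ℂ) ∈ circ x ∩ Cc 0 := by
          refine ⟨(coe_mem_circ _ _).2 ?_, (mem_Cc0_coe _).2 (Complex.ofReal_im _)⟩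
          rw [eqn_real, ha]
          field_simp
          ring
        exact OnePoint.infty_ne_coe _ (key _ _ ⟨(infty_mem_circ x).2 ha, infty_mem_Cc0⟩ hm)
      · set D := x 3 ^ 2 - (x 2 + x 3) * (x 1 + x 3) with hDdef
        have hs : Real.sqrt D ^ 2 = D := Real.sq_sqrt hD.le
        have hs0 : 0 < Real.sqrt D := Real.sqrt_pos.2 hD
        have hm : ∀ σ : ℝ, σ ^ 2 = D →
            ((((x 3 + σ) / (x 2 + x 3) : ℝ) : ℂ) : OnePoint ℂ) ∈ circ x ∩ Cc 0 := by
          intro σ hσ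
          refine ⟨(coe_mem_circ _ _).2 ?_, (mem_Cc0_coe _).2 (Complex.ofReal_im _)⟩
          rw [eqn_real]
          field_simp
          rw [hDdef] at hσ
          linear_combination hσ
        have := key _ _ (hm _ hs) (hm (-Real.sqrt D) (by rw [neg_sq]; exact hs))
        rw [OnePoint.coe_eq_coe, Complex.ofReal_inj, div_left_inj' ha] at this
        linarith
    · -- empty
      have hD : x 3 ^ 2 - (x 2 + x 3) * (x 1 + x 3) < 0 := by rw [hd]; linarith
      induction p using OnePoint.rec with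
      | infty =>
        rw [infty_mem_circ] at hp1
        rw [hp1] at hD
        nlinarith [sq_nonneg (x 3)]
      | coe z =>
        rw [mem_Cc0_coe] at hp2
        rw [coe_mem_circ] at hp1
        have hz : z = (z.re : ℂ) := by
          apply Complex.ext <;> simp [hp2]
        rw [hz, eqn_real] at hp1
        have h5 : (x 2 + x 3) * ((x 2 + x 3) * z.re ^ 2 - 2 * x 3 * z.re + (x 1 + x 3)) = 0 := by
          rw [hp1, mul_zero]
        nlinarith [sq_nonneg ((x 2 + x 3) * z.re - x 3)]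
  · intro h
    have hD : x 3 ^ 2 - (x 2 + x 3) * (x 1 + x 3) < 0 := by rw [hd]; linarith
    rw [Set.eq_empty_iff_forall_notMem]
    rintro p ⟨hp1, hp2⟩
    induction p using OnePoint.rec with
    | infty =>
      rw [infty_mem_circ] at hp1
      rw [hp1] at hD
      nlinarith [sq_nonneg (x 3)]
    | coe z =>
      rw [mem_Cc0_coe] at hp2
      rw [coe_mem_circ] at hp1
      have hz : z = (z.re : ℂ) := by
        apply Complex.ext <;> simp [hp2]
      rw [hz, eqn_real] at hp1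
      have h5 : (x 2 + x 3) * ((x 2 + x 3) * z.re ^ 2 - 2 * x 3 * z.re + (x 1 + x 3)) = 0 := by
        rw [hp1, mul_zero]
      nlinarith [sq_nonneg ((x 2 + x 3) * z.re - x 3)]

/-! ### `RR` and `img` -/

lemma coe_mem_RR (z : ℂ) : (z : OnePoint ℂ) ∈ RR ↔ z.im = 0 := by
  constructor
  · rintro (h | ⟨x, hx⟩)
    · exact absurd h (OnePoint.coe_ne_infty z)
    · have : (x : ℂ) = z := OnePoint.coe_injective hx
      rw [← this]; exact Complex.ofReal_im x
  · intro h
    refine Or.inr ⟨z.re, ?_⟩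
    have hz : (z.re : ℂ) = z := by
      apply Complex.ext <;> simp [h]
    exact congrArg OnePoint.some hz

lemma infty_mem_RR : (OnePoint.infty : OnePoint ℂ) ∈ RR := Or.inl rfl

lemma mem_RR_cases {p : OnePoint ℂ} (h : p ∈ RR) : p = OnePoint.infty ∨ ∃ x : ℝ, p = ((x : ℂ) : OnePoint ℂ) := by
  rcases h with h | ⟨x, hx⟩
  · exact Or.inl h
  · exact Or.inr ⟨x, hx.symm⟩

lemma img_mul (g h : GLC) (S : Set (OnePoint ℂ)) : img (g * h) S = img g (img h S) := by
  unfold img
  rw [Set.image_image]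
  simp only [mul_smul]

lemma img_one (S : Set (OnePoint ℂ)) : img 1 S = S := by
  unfold img; simp

lemma img_inj (g : GLC) {S T : Set (OnePoint ℂ)} (h : img g S = img g T) : S = T := by
  have := congrArg (img g⁻¹) h
  rwa [← img_mul, ← img_mul, inv_mul_cancel, img_one, img_one] at this

lemma det_ne (g : GLC) : g 0 0 * g 1 1 - g 0 1 * g 1 0 ≠ 0 := by
  have := g.det_ne_zero
  rwa [Matrix.det_fin_two] at this


/-! ### finite intersections -/

/-- the entries are common multiples of reals -/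
def Rl (g : GLC) : Prop := ∃ c : ℂ, c ≠ 0 ∧ ∃ r : Fin 2 → Fin 2 → ℝ, ∀ i j, g i j = c * (r i j : ℂ)

lemma Rl.sub {g : GLC} (h : Rl g) : img g RR ⊆ RR := by
  obtain ⟨c, hc, r, hr⟩ := h
  rintro _ ⟨p, hp, rfl⟩
  show g • p ∈ RR
  rcases mem_RR_cases hp with rfl | ⟨x, rfl⟩
  · rw [OnePoint.smul_infty_eq_ite]
    split_ifs
    · exact infty_mem_RR
    · have h1 : g 0 0 / g 1 0 = ((r 0 0 / r 1 0 : ℝ) : ℂ) := by
        rw [hr, hr, mul_div_mul_left _ _ hc]; push_cast; rfl
      exact (coe_mem_RR _).2 (by rw [h1]; exact Complex.ofReal_im _)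
  · rw [OnePoint.smul_some_eq_ite]
    split_ifs
    · exact infty_mem_RR
    · have h1 : (g 0 0 * (x:ℂ) + g 0 1) / (g 1 0 * (x:ℂ) + g 1 1)
          = (((r 0 0 * x + r 0 1) / (r 1 0 * x + r 1 1) : ℝ) : ℂ) := by
        rw [hr, hr, hr, hr, mul_assoc, mul_assoc, ← mul_add, ← mul_add, mul_div_mul_left _ _ hc]
        push_cast; rfl
      exact (coe_mem_RR _).2 (by rw [h1]; exact Complex.ofReal_im _)

lemma inv_entries (g : GLC) : ∀ i j, g⁻¹ i j =
    (g 0 0 * g 1 1 - g 0 1 * g 1 0)⁻¹ * (!![g 1 1, -g 0 1; -g 1 0, g 0 0] i j) := by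
  intro i j
  rw [Matrix.coe_units_inv, Matrix.inv_def, Matrix.det_fin_two, Ring.inverse_eq_inv,
    Matrix.adjugate_fin_two, Matrix.smul_apply, smul_eq_mul]

lemma Rl.inv {g : GLC} (h : Rl g) : Rl g⁻¹ := by
  obtain ⟨c, hc, r, hr⟩ := h
  refine ⟨(g 0 0 * g 1 1 - g 0 1 * g 1 0)⁻¹ * c, mul_ne_zero (inv_ne_zero (det_ne g)) hc,
    fun i j => !![r 1 1, -r 0 1; -r 1 0, r 0 0] i j, fun i j => ?_⟩
  rw [inv_entries, mul_assoc]
  congr 1
  fin_cases i <;> fin_cases j <;> simp [hr]

lemma Rl.eq {g : GLC} (h : Rl g) : img g RR = RR := by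
  refine Set.Subset.antisymm h.sub ?_
  have h1 : img g (img g⁻¹ RR) ⊆ img g RR := Set.image_mono h.inv.sub
  rwa [← img_mul, mul_inv_cancel, img_one] at h1


lemma rl_of (g : GLC) (hA : (g 0 0 * (starRingEnd ℂ) (g 1 0)).im = 0)
    (hB : (g 0 0 * (starRingEnd ℂ) (g 1 1) + g 0 1 * (starRingEnd ℂ) (g 1 0)).im = 0)
    (hC : (g 0 1 * (starRingEnd ℂ) (g 1 1)).im = 0) : Rl g := by
  have hdet := det_ne g
  by_cases hc : g 1 0 = 0
  · -- upper triangular
    have hd : g 1 1 ≠ 0 := by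
      intro h; rw [hc, h] at hdet; simp at hdet
    obtain ⟨α, hα⟩ : ∃ α, g 0 0 = g 1 1 * α := ⟨g 0 0 / g 1 1, by field_simp⟩
    obtain ⟨β, hβ⟩ : ∃ β, g 0 1 = g 1 1 * β := ⟨g 0 1 / g 1 1, by field_simp⟩
    set d := g 1 1 with hdd
    have hN : 0 < Complex.normSq d := Complex.normSq_pos.2 hd
    have e1 : ∀ γ : ℂ, (d * γ * (starRingEnd ℂ) d).im = Complex.normSq d * γ.im := by
      intro γ
      have : d * γ * (starRingEnd ℂ) d = (Complex.normSq d : ℂ) * γ := by
        rw [← Complex.mul_conj]; ring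
      rw [this, Complex.im_ofReal_mul]
    rw [hc, map_zero, mul_zero, add_zero, hα, e1] at hB
    rw [hβ, e1] at hC
    have hα0 : α.im = 0 := by
      rcases mul_eq_zero.1 hB with h | h
      · exact absurd h hN.ne'
      · exact h
    have hβ0 : β.im = 0 := by
      rcases mul_eq_zero.1 hC with h | h
      · exact absurd h hN.ne'
      · exact h
    have hα1 : α = (α.re : ℂ) := by apply Complex.ext <;> simp [hα0]
    have hβ1 : β = (β.re : ℂ) := by apply Complex.ext <;> simp [hβ0]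
    refine ⟨d, hd, fun i j => !![α.re, β.re; 0, 1] i j, fun i j => ?_⟩
    fin_cases i <;> fin_cases j
    · simp only [Fin.zero_eta, Fin.isValue, Matrix.of_apply, Matrix.cons_val', Matrix.cons_val_zero,
        Matrix.cons_val_fin_one]
      rw [hα, ← hα1]
    · simp only [Fin.zero_eta, Fin.isValue, Fin.mk_one, Matrix.of_apply, Matrix.cons_val',
        Matrix.cons_val_zero, Matrix.cons_val_one, Matrix.cons_val_fin_one]
      rw [hβ, ← hβ1]
    · simp [hc]
    · simp [hdd]
  · obtain ⟨α, hα⟩ : ∃ α, g 0 0 = g 1 0 * α := ⟨g 0 0 / g 1 0, by field_simp⟩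
    obtain ⟨β, hβ⟩ : ∃ β, g 0 1 = g 1 0 * β := ⟨g 0 1 / g 1 0, by field_simp⟩
    obtain ⟨δ, hδ⟩ : ∃ δ, g 1 1 = g 1 0 * δ := ⟨g 1 1 / g 1 0, by field_simp⟩
    set c := g 1 0 with hcc
    have hN : Complex.normSq c ≠ 0 := (Complex.normSq_pos.2 hc).ne'
    have eA : g 0 0 * (starRingEnd ℂ) c = (Complex.normSq c : ℂ) * α := by
      rw [← Complex.mul_conj, hα]; ring
    have eB : g 0 0 * (starRingEnd ℂ) (g 1 1) + g 0 1 * (starRingEnd ℂ) c
        = (Complex.normSq c : ℂ) * (α * (starRingEnd ℂ) δ + β) := by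
      rw [← Complex.mul_conj, hα, hβ, hδ, map_mul]; ring
    have eC : g 0 1 * (starRingEnd ℂ) (g 1 1)
        = (Complex.normSq c : ℂ) * (β * (starRingEnd ℂ) δ) := by
      rw [← Complex.mul_conj, hβ, hδ, map_mul]; ring
    rw [eA, Complex.im_ofReal_mul] at hA
    rw [eB, Complex.im_ofReal_mul] at hB
    rw [eC, Complex.im_ofReal_mul] at hC
    have hA' := (mul_eq_zero.1 hA).resolve_left hN
    have hB' := (mul_eq_zero.1 hB).resolve_left hN
    have hC' := (mul_eq_zero.1 hC).resolve_left hN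
    simp only [Complex.add_im, Complex.mul_im, Complex.conj_re, Complex.conj_im] at hB' hC'
    have hne : α * δ ≠ β := by
      intro h
      apply hdet
      rw [hα, hβ, hδ, ← h]; ring
    have hδ0 : δ.im = 0 := by
      by_contra h
      apply hne
      rw [hA'] at hB'
      have h1 : β.im = α.re * δ.im := by linarith
      have h2 : (β.re - α.re * δ.re) * δ.im = 0 := by
        rw [h1] at hC'; linarith
      have h3 := (mul_eq_zero.1 h2).resolve_right h
      apply Complex.ext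
      · rw [Complex.mul_re, hA']; linarith
      · rw [Complex.mul_im, hA']; linarith
    have hβ0 : β.im = 0 := by
      rw [hA', hδ0] at hB'; linarith
    have hα1 : α = (α.re : ℂ) := by apply Complex.ext <;> simp [hA']
    have hβ1 : β = (β.re : ℂ) := by apply Complex.ext <;> simp [hβ0]
    have hδ1 : δ = (δ.re : ℂ) := by apply Complex.ext <;> simp [hδ0]
    refine ⟨c, hc, fun i j => !![α.re, β.re; 1, δ.re] i j, fun i j => ?_⟩
    fin_cases i <;> fin_cases j
    · simp only [Fin.zero_eta, Fin.isValue, Matrix.of_apply, Matrix.cons_val', Matrix.cons_val_zero,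
        Matrix.cons_val_fin_one]
      rw [hα, ← hα1]
    · simp only [Fin.zero_eta, Fin.isValue, Fin.mk_one, Matrix.of_apply, Matrix.cons_val',
        Matrix.cons_val_zero, Matrix.cons_val_one, Matrix.cons_val_fin_one]
      rw [hβ, ← hβ1]
    · simp [hcc]
    · simp only [Fin.isValue, Fin.mk_one, Matrix.of_apply, Matrix.cons_val',
        Matrix.cons_val_one, Matrix.cons_val_fin_one]
      rw [hδ, ← hδ1]

lemma quad_fin {A B C : ℝ} (h : ¬ (A = 0 ∧ B = 0 ∧ C = 0)) :
    {x : ℝ | A * x ^ 2 + B * x + C = 0}.Finite := by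
  set p : Polynomial ℝ := Polynomial.C A * Polynomial.X ^ 2 + Polynomial.C B * Polynomial.X
    + Polynomial.C C with hp
  have hp0 : p ≠ 0 := by
    intro h0
    apply h
    have h1 : p.coeff 2 = A := by simp [hp]
    have h2 : p.coeff 1 = B := by simp [hp, Polynomial.coeff_X_pow, Polynomial.coeff_C]
    have h3 : p.coeff 0 = C := by simp [hp]
    rw [h0] at h1 h2 h3
    simp at h1 h2 h3
    exact ⟨h1.symm, h2.symm, h3.symm⟩
  refine (Polynomial.finite_setOfPred_isRoot hp0).subset fun x hx => ?_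
  simp only [Set.mem_ofPred_eq, Polynomial.IsRoot.def, hp, Polynomial.eval_add, Polynomial.eval_mul,
    Polynomial.eval_C, Polynomial.eval_pow, Polynomial.eval_X] at hx ⊢
  exact hx

lemma inter_RR (g : GLC) (h : ¬ Rl g) : (RR ∩ img g RR).Finite := by
  set A := (g 0 0 * (starRingEnd ℂ) (g 1 0)).im with hA
  set B := (g 0 0 * (starRingEnd ℂ) (g 1 1) + g 0 1 * (starRingEnd ℂ) (g 1 0)).im with hB
  set C := (g 0 1 * (starRingEnd ℂ) (g 1 1)).im with hC
  have hfin := quad_fin (A := A) (B := B) (C := C) fun ⟨h1, h2, h3⟩ => h (rl_of g h1 h2 h3)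
  refine (((hfin.image fun x : ℝ => ((x : ℂ) : OnePoint ℂ)).insert OnePoint.infty).image
    fun w => g • w).subset ?_
  rintro q ⟨hq, p, hp, rfl⟩
  refine ⟨p, ?_, rfl⟩
  rcases mem_RR_cases hp with rfl | ⟨x, rfl⟩
  · exact Or.inl rfl
  · refine Or.inr ⟨x, ?_, rfl⟩
    have e : A * x ^ 2 + B * x + C
        = ((g 0 0 * (x:ℂ) + g 0 1) * (starRingEnd ℂ) (g 1 0 * (x:ℂ) + g 1 1)).im := by
      rw [hA, hB, hC]
      simp only [map_add, map_mul, Complex.conj_ofReal, Complex.add_im, Complex.mul_im,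
        Complex.add_re, Complex.mul_re, Complex.ofReal_re, Complex.ofReal_im, Complex.conj_re,
        Complex.conj_im]
      ring
    show A * x ^ 2 + B * x + C = 0
    rw [e]
    simp only [OnePoint.smul_some_eq_ite] at hq
    split_ifs at hq with h0
    · rw [h0]; simp
    · rw [coe_mem_RR] at hq
      set u := g 0 0 * (x:ℂ) + g 0 1 with hu
      set v := g 1 0 * (x:ℂ) + g 1 1 with hv
      have : u * (starRingEnd ℂ) v = (Complex.normSq v : ℂ) * (u / v) := by
        rw [← Complex.mul_conj]; field_simp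
      rw [this, Complex.im_ofReal_mul, hq, mul_zero]

theorem inter : StInter := by
  rintro S T ⟨g, rfl⟩ ⟨h, rfl⟩ hne
  have hnot : ¬ Rl (g⁻¹ * h) := by
    intro hr
    apply hne
    have := congrArg (img g) hr.eq
    rw [← img_mul, mul_inv_cancel_left] at this
    exact this.symm
  have hf := inter_RR _ hnot
  have e : img g RR ∩ img h RR = (fun w : OnePoint ℂ => g • w) '' (RR ∩ img (g⁻¹ * h) RR) := by
    have hinj : Function.Injective (fun w : OnePoint ℂ => g • w) := MulAction.injective g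
    rw [Set.image_inter hinj]
    change img g RR ∩ img h RR = img g RR ∩ img g (img (g⁻¹ * h) RR)
    rw [← img_mul, mul_inv_cancel_left]
  rw [e]
  exact hf.image _

/-! ### perfectness -/

lemma ι_cont : Continuous fun x : ℝ => ((x : ℂ) : OnePoint ℂ) :=
  OnePoint.continuous_coe.comp Complex.continuous_ofReal

lemma RR_perf (B : Set (OnePoint ℂ)) (hB : B.Countable) : RR ⊆ closure (RR \ B) := by
  set ι : ℝ → OnePoint ℂ := fun x => ((x : ℂ) : OnePoint ℂ) with hι
  have hinj : Function.Injective ι := OnePoint.coe_injective.comp Complex.ofReal_injective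
  have hc : (ι ⁻¹' B).Countable := hB.preimage hinj
  have hd : Dense (ι ⁻¹' B)ᶜ := hc.dense_compl ℝ
  have h1 : ι '' (ι ⁻¹' B)ᶜ ⊆ RR \ B := by
    rintro _ ⟨x, hx, rfl⟩
    exact ⟨Or.inr ⟨x, rfl⟩, hx⟩
  have h2 : ∀ x : ℝ, ι x ∈ closure (RR \ B) := by
    intro x
    have : ι x ∈ ι '' closure (ι ⁻¹' B)ᶜ := ⟨x, hd x, rfl⟩
    exact closure_mono h1 (image_closure_subset_closure_image ι_cont this)
  intro p hp
  rcases mem_RR_cases hp with rfl | ⟨x, rfl⟩
  · have ht : Tendsto ι (cocompact ℝ) (𝓝 OnePoint.infty) := by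
      have t1 : Tendsto (fun x : ℝ => (x : ℂ)) (cocompact ℝ) (cocompact ℂ) :=
        Complex.isometry_ofReal.isClosedEmbedding.tendsto_cocompact
      have t2 : Tendsto (fun z : ℂ => (z : OnePoint ℂ)) (cocompact ℂ) (𝓝 OnePoint.infty) := by
        have := OnePoint.tendsto_coe_infty (X := ℂ)
        rwa [coclosedCompact_eq_cocompact] at this
      exact t2.comp t1
    exact isClosed_closure.mem_of_tendsto ht (Filter.Eventually.of_forall h2)
  · exact h2 x

theorem perf (h : StCont) : StPerf := by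
  rintro T ⟨g, rfl⟩ B hB
  have hinj : Function.Injective (fun w : OnePoint ℂ => g • w) := MulAction.injective g
  have hB' : ((fun w : OnePoint ℂ => g • w) ⁻¹' B).Countable := hB.preimage hinj
  have h1 : img g RR ⊆ closure ((fun w : OnePoint ℂ => g • w) ''
      (RR \ ((fun w : OnePoint ℂ => g • w) ⁻¹' B))) :=
    (Set.image_mono (RR_perf _ hB')).trans (image_closure_subset_closure_image (h g))
  refine h1.trans (closure_mono ?_)
  rintro _ ⟨p, ⟨hp, hpB⟩, rfl⟩
  exact ⟨⟨p, hp, rfl⟩, hpB⟩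

/-! ### round circles -/

theorem sph : ∀ (m : ℂ) (r : ℝ), 0 < r → IsCirc (up (Metric.sphere m r)) := by
  intro m r hr
  have hdet : (m + r) * Complex.I - (m * Complex.I - r * Complex.I) * 1 ≠ 0 := by
    have : (m + r) * Complex.I - (m * Complex.I - r * Complex.I) * 1 = 2 * r * Complex.I := by ring
    rw [this]
    have : (r : ℂ) ≠ 0 := by exact_mod_cast hr.ne'
    exact mul_ne_zero (mul_ne_zero two_ne_zero this) Complex.I_ne_zero
  set g : GLC := mk2 (m + r) (m * Complex.I - r * Complex.I) 1 Complex.I hdet with hg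
  have g00 : g 0 0 = m + r := by simp [hg, mk2, Matrix.GeneralLinearGroup.mkOfDetNeZero]
  have g01 : g 0 1 = m * Complex.I - r * Complex.I := by
    simp [hg, mk2, Matrix.GeneralLinearGroup.mkOfDetNeZero]
  have g10 : g 1 0 = 1 := by simp [hg, mk2, Matrix.GeneralLinearGroup.mkOfDetNeZero]
  have g11 : g 1 1 = Complex.I := by simp [hg, mk2, Matrix.GeneralLinearGroup.mkOfDetNeZero]
  have hx : ∀ x : ℝ, (x : ℂ) + Complex.I ≠ 0 := by
    intro x h
    have := congrArg Complex.im h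
    simp at this
  have hgx : ∀ x : ℝ, g • ((x : ℂ) : OnePoint ℂ)
      = ((m + r * ((x - Complex.I) / (x + Complex.I)) : ℂ) : OnePoint ℂ) := by
    intro x
    rw [OnePoint.smul_some_eq_ite, g00, g01, g10, g11, one_mul, if_neg (hx x)]
    congr 1
    have := hx x
    field_simp
    ring
  have hginf : g • (OnePoint.infty : OnePoint ℂ) = ((m + r : ℂ) : OnePoint ℂ) := by
    rw [OnePoint.smul_infty_eq_ite, g00, g10, if_neg one_ne_zero, div_one]
  refine ⟨g, Set.Subset.antisymm ?_ ?_⟩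
  · rintro _ ⟨w, hw, rfl⟩
    rw [mem_sphere_iff_norm] at hw
    obtain ⟨ω, hω⟩ : ∃ ω : ℂ, w = m + r * ω := by
      refine ⟨(w - m) / r, ?_⟩
      have : (r : ℂ) ≠ 0 := by exact_mod_cast hr.ne'
      field_simp
      ring
    have hω1 : ‖ω‖ = 1 := by
      rw [hω, add_sub_cancel_left, norm_mul, Complex.norm_real, Real.norm_of_nonneg hr.le] at hw
      exact mul_left_cancel₀ hr.ne' (by rw [hw, mul_one])
    by_cases h1 : ω = 1
    · refine ⟨OnePoint.infty, infty_mem_RR, ?_⟩
      show g • (OnePoint.infty : OnePoint ℂ) = (w : OnePoint ℂ)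
      rw [hginf, hω, h1, mul_one]
    · have h1' : (1:ℂ) - ω ≠ 0 := sub_ne_zero.2 (Ne.symm h1)
      have hN : Complex.normSq (1 - ω) ≠ 0 := (Complex.normSq_pos.2 h1').ne'
      have hω2 : ω * (starRingEnd ℂ) ω = 1 := by
        rw [Complex.mul_conj, Complex.normSq_eq_norm_sq, hω1]; norm_num
      set x : ℝ := -2 * ω.im / Complex.normSq (1 - ω) with hxdef
      have hxe : (x : ℂ) * (1 - ω) = Complex.I * (1 + ω) := by
        have e1 : (x : ℂ) * (Complex.normSq (1 - ω) : ℂ) = -2 * ω.im := by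
          rw [hxdef]; push_cast
          have : (Complex.normSq (1 - ω) : ℂ) ≠ 0 := by exact_mod_cast hN
          field_simp
        have e2 : (Complex.normSq (1 - ω) : ℂ) = (1 - ω) * (1 - (starRingEnd ℂ) ω) := by
          rw [← Complex.mul_conj]; simp
        have e3 : (1:ℂ) - (starRingEnd ℂ) ω ≠ 0 := by
          intro h
          apply h1'
          have := congrArg (starRingEnd ℂ) h
          simpa using this
        have e4 : ω - (starRingEnd ℂ) ω = (2 * ω.im) * Complex.I := by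
          rw [Complex.sub_conj]; push_cast; ring
        rw [e2] at e1
        apply mul_right_cancel₀ e3
        have : Complex.I * (1 + ω) * (1 - (starRingEnd ℂ) ω)
            = Complex.I * (1 + (ω - (starRingEnd ℂ) ω) - ω * (starRingEnd ℂ) ω) := by ring
        rw [this, e4, hω2]
        have e5 : Complex.I * (1 + 2 * (ω.im : ℂ) * Complex.I - 1) = -2 * ω.im := by
          have : Complex.I * (1 + 2 * (ω.im : ℂ) * Complex.I - 1)
              = (Complex.I * Complex.I) * (2 * ω.im) := by ring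
          rw [this, Complex.I_mul_I]; ring
        rw [e5, ← e1]; ring
      refine ⟨((x : ℂ) : OnePoint ℂ), (coe_mem_RR _).2 (Complex.ofReal_im _), ?_⟩
      show g • ((x : ℂ) : OnePoint ℂ) = (w : OnePoint ℂ)
      rw [hgx, hω]
      congr 3
      rw [div_eq_iff (hx x)]
      linear_combination hxe
  · rintro _ ⟨p, hp, rfl⟩
    rcases mem_RR_cases hp with rfl | ⟨x, rfl⟩
    · refine ⟨m + r, ?_, hginf.symm⟩
      rw [mem_sphere_iff_norm, add_sub_cancel_left, Complex.norm_real, Real.norm_of_nonneg hr.le]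
    · refine ⟨_, ?_, (hgx x).symm⟩
      rw [mem_sphere_iff_norm, add_sub_cancel_left, norm_mul, Complex.norm_real,
        Real.norm_of_nonneg hr.le, norm_div]
      have h1 : ‖(x : ℂ) - Complex.I‖ = ‖(x : ℂ) + Complex.I‖ := by
        rw [← Complex.norm_conj]
        congr 1
        simp
      rw [h1, div_self (norm_ne_zero_iff.2 (hx x)), mul_one]

end Pool.Agent.N344.APTan
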