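import Pool.Agent.N502.TM.Stm

/-! # Project TM: discrete energies versus kernel energies -/

set_option autoImplicit false

namespace Pool.Agent.N344.TM

open MeasureTheory Set Filter Topology
open scoped ENNReal Real InnerProductSpace
open Pool.Agent.N502.TM

theorem heat_nonneg (d : ℕ) {s : ℝ} (hs : 0 < s) (z : V d) : 0 ≤ heat d s z := by
  unfold heat
  positivity

theorem heat_meas (d : ℕ) : Measurable (fun p : ℝ × V d => heat d p.1 p.2) := by
  unfold heat
  refine Measurable.mul ?_ ?_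
  · exact (measurable_const.mul measurable_fst).pow_const _
  · refine Real.measurable_exp.comp ?_
    exact ((measurable_snd.norm.pow_const 2).neg).div (measurable_const.mul measurable_fst)

section

variable {d : ℕ} {T : ℝ → (L2 d →L[ℝ] L2 d)} (hT : IsHeat d T)

include hT

theorem two (f : L2 d) {s t : ℝ} (hs : 0 < s) (ht : 0 < t) :
    ⟪T s f, T t f⟫_ℝ = ⟪f, T (s + t) f⟫_ℝ := by
  rw [hT.symm s hs, hT.semi s t hs ht]

theorem half (f : L2 d) {s : ℝ} (hs : 0 < s) :
    ⟪f, T s f⟫_ℝ = ‖T (s / 2) f‖ ^ 2 := by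
  have h := two hT f (half_pos hs) (half_pos hs)
  rw [add_halves] at h
  rw [← h, real_inner_self_eq_norm_sq]

theorem le_norm (f : L2 d) {s : ℝ} (hs : 0 < s) : ⟪f, T s f⟫_ℝ ≤ ‖f‖ ^ 2 := by
  have h1 : ‖T s f‖ ≤ ‖f‖ := by
    calc ‖T s f‖ ≤ ‖T s‖ * ‖f‖ := (T s).le_opNorm f
      _ ≤ 1 * ‖f‖ := by
          have := hT.norm_le s hs
          gcongr
      _ = ‖f‖ := one_mul _
  calc ⟪f, T s f⟫_ℝ ≤ ‖f‖ * ‖T s f‖ := real_inner_le_norm _ _
    _ ≤ ‖f‖ * ‖f‖ := by gcongr
    _ = ‖f‖ ^ 2 := (sq _).symm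

theorem mono (f : L2 d) {s t : ℝ} (hs : 0 < s) (hst : s ≤ t) :
    ⟪f, T t f⟫_ℝ ≤ ⟪f, T s f⟫_ℝ := by
  rcases hst.eq_or_lt with rfl | h
  · exact le_rfl
  have h1 : ⟪f, T t f⟫_ℝ = ⟪T (s / 2) f, T (t - s) (T (s / 2) f)⟫_ℝ := by
    rw [hT.semi _ _ (by linarith) (by linarith), hT.symm _ (by linarith),
      hT.semi _ _ (by linarith) (by linarith)]
    congr 3
    ring
  rw [h1, half hT f hs]
  exact le_norm hT _ (by linarith)

theorem pow_eq {τ : ℝ} (hτ : 0 < τ) (f : L2 d) (k : ℕ) :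
    ((T τ) ^ (k + 1)) f = T (((k : ℝ) + 1) * τ) f := by
  induction k with
  | zero => simp
  | succ k ih =>
    rw [pow_succ']
    change T τ (((T τ) ^ (k + 1)) f) = _
    rw [ih, hT.semi _ _ hτ (by positivity)]
    congr 2
    push_cast
    ring

theorem ofReal_inner {s : ℝ} (hs : 0 < s) (u : L2 d) (hu : ∀ᵐ x, 0 ≤ u x) :
    ENNReal.ofReal ⟪u, T s u⟫_ℝ =
      ∫⁻ x, ∫⁻ z, ENNReal.ofReal (u x) * ENNReal.ofReal (u z) *
        ENNReal.ofReal (heat d s (x - z)) := by
  have h1 : ∀ᵐ p ∂((volume : Measure (V d)).prod (volume : Measure (V d))), 0 ≤ u p.1 :=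
    Measure.quasiMeasurePreserving_fst.ae hu
  have h2 : ∀ᵐ p ∂((volume : Measure (V d)).prod (volume : Measure (V d))), 0 ≤ u p.2 :=
    Measure.quasiMeasurePreserving_snd.ae hu
  rw [hT.inner s hs u u, ofReal_integral_eq_lintegral_ofReal (hT.int s hs u u)]
  · rw [lintegral_congr_ae (g := fun p : V d × V d => ENNReal.ofReal (u p.1) *
      ENNReal.ofReal (u p.2) * ENNReal.ofReal (heat d s (p.1 - p.2)))]
    · refine lintegral_prod _ ?_
      have hm : Measurable (u : V d → ℝ) := (Lp.stronglyMeasurable u).measurable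
      refine Measurable.aemeasurable ?_
      refine ((hm.comp measurable_fst).ennreal_ofReal.mul
        (hm.comp measurable_snd).ennreal_ofReal).mul ?_
      refine Measurable.ennreal_ofReal ?_
      exact (heat_meas d).comp (measurable_const.prodMk (measurable_fst.sub measurable_snd))
    · filter_upwards [h1, h2] with p hp1 hp2
      rw [ENNReal.ofReal_mul (mul_nonneg hp1 hp2), ENNReal.ofReal_mul hp1]
  · filter_upwards [h1, h2] with p hp1 hp2
    exact mul_nonneg (mul_nonneg hp1 hp2) (heat_nonneg d hs _)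

theorem WW_eq (c : ℝ) (u : L2 d) (hu : ∀ᵐ x, 0 ≤ u x) :
    WW d c (fun x => ENNReal.ofReal (u x)) =
      ∫⁻ s in Ioi (0 : ℝ), ENNReal.ofReal (s ^ (-(1 / 2) : ℝ)) *
        ENNReal.ofReal (Real.exp (-c * s) * ⟪u, T s u⟫_ℝ) := by
  have hm : Measurable (u : V d → ℝ) := (Lp.stronglyMeasurable u).measurable
  have hk : Measurable (fun p : (V d × V d) × ℝ => ENNReal.ofReal
      (p.2 ^ (-(1 / 2) : ℝ) * Real.exp (-c * p.2) * heat d p.2 (p.1.1 - p.1.2))) := by
    refine Measurable.ennreal_ofReal ?_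
    refine Measurable.mul (Measurable.mul ?_ ?_) ?_
    · exact measurable_snd.pow_const _
    · exact Real.measurable_exp.comp (measurable_const.mul measurable_snd)
    · exact (heat_meas d).comp (measurable_snd.prodMk
        ((measurable_fst.comp measurable_fst).sub (measurable_snd.comp measurable_fst)))
  have hF : Measurable (fun p : (V d × V d) × ℝ => ENNReal.ofReal (u p.1.1) *
      ENNReal.ofReal (u p.1.2) * ENNReal.ofReal
      (p.2 ^ (-(1 / 2) : ℝ) * Real.exp (-c * p.2) * heat d p.2 (p.1.1 - p.1.2))) := by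
    refine Measurable.mul (Measurable.mul ?_ ?_) hk
    · exact (hm.comp (measurable_fst.comp measurable_fst)).ennreal_ofReal
    · exact (hm.comp (measurable_snd.comp measurable_fst)).ennreal_ofReal
  have e1 : WW d c (fun x => ENNReal.ofReal (u x)) =
      ∫⁻ x, ∫⁻ z, ∫⁻ s in Ioi (0 : ℝ), ENNReal.ofReal (u x) *
      ENNReal.ofReal (u z) * ENNReal.ofReal
      (s ^ (-(1 / 2) : ℝ) * Real.exp (-c * s) * heat d s (x - z)) := by
    unfold WW kern
    refine lintegral_congr fun x => lintegral_congr fun z => ?_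
    rw [lintegral_const_mul]
    exact hk.comp (measurable_const.prodMk measurable_id : Measurable fun s : ℝ => ((x, z), s))
  have e2 : ∀ x : V d, ∫⁻ z, ∫⁻ s in Ioi (0 : ℝ), ENNReal.ofReal (u x) *
      ENNReal.ofReal (u z) * ENNReal.ofReal
      (s ^ (-(1 / 2) : ℝ) * Real.exp (-c * s) * heat d s (x - z)) =
      ∫⁻ s in Ioi (0 : ℝ), ∫⁻ z, ENNReal.ofReal (u x) *
      ENNReal.ofReal (u z) * ENNReal.ofReal
      (s ^ (-(1 / 2) : ℝ) * Real.exp (-c * s) * heat d s (x - z)) := by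
    intro x
    refine lintegral_lintegral_swap ?_
    refine Measurable.aemeasurable ?_
    exact hF.comp ((measurable_const.prodMk measurable_fst).prodMk measurable_snd :
      Measurable fun q : V d × ℝ => ((x, q.1), q.2))
  rw [e1, lintegral_congr e2, lintegral_lintegral_swap]
  · refine setLIntegral_congr_fun measurableSet_Ioi fun s hs => ?_
    have hs' : 0 < s := hs
    rw [ENNReal.ofReal_mul (Real.exp_pos _).le, ofReal_inner hT hs' u hu, ← mul_assoc]
    rw [← lintegral_const_mul]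
    · refine lintegral_congr fun x => ?_
      rw [← lintegral_const_mul]
      · refine lintegral_congr fun z => ?_
        rw [ENNReal.ofReal_mul (by positivity), ENNReal.ofReal_mul (by positivity)]
        ring
      · refine Measurable.mul (measurable_const.mul hm.ennreal_ofReal) ?_
        have hx : Measurable (fun z : V d => (s, x - z)) :=
          measurable_const.prodMk (measurable_const.sub measurable_id)
        exact ((heat_meas d).comp hx).ennreal_ofReal
    · refine Measurable.lintegral_prod_right' (f := fun p : V d × V d => ENNReal.ofReal (u p.1) *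
        ENNReal.ofReal (u p.2) * ENNReal.ofReal (heat d s (p.1 - p.2))) ?_
      refine ((hm.comp measurable_fst).ennreal_ofReal.mul
        (hm.comp measurable_snd).ennreal_ofReal).mul ?_
      refine Measurable.ennreal_ofReal ?_
      exact (heat_meas d).comp (measurable_const.prodMk (measurable_fst.sub measurable_snd))
  · refine Measurable.aemeasurable ?_
    have hg : Measurable fun q : (V d × ℝ) × V d => ((q.1.1, q.2), q.1.2) :=
      ((measurable_fst.comp measurable_fst).prodMk measurable_snd).prodMk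
        (measurable_snd.comp measurable_fst)
    have h5 := hF.comp hg
    simp only [Function.comp_def] at h5
    exact Measurable.lintegral_prod_right' h5

theorem nonneg_T {τ : ℝ} (hτ : 0 < τ) (f : L2 d) (hf : ∀ᵐ x, 0 ≤ f x) :
    ∀ᵐ x, 0 ≤ T τ f x := by
  filter_upwards [hT.ae τ hτ f] with x hx
  rw [hx]
  refine integral_nonneg_of_ae ?_
  filter_upwards [hf] with y hy
  exact mul_nonneg hy (heat_nonneg d hτ _)

end

/-- The function `φ`. -/
noncomputable def ph {d : ℕ} (T : ℝ → (L2 d →L[ℝ] L2 d)) (f : L2 d) (s : ℝ) : ℝ :=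
  if s = 0 then ‖f‖ ^ 2 else ⟪f, T s f⟫_ℝ

section

variable {d : ℕ} {T : ℝ → (L2 d →L[ℝ] L2 d)} (hT : IsHeat d T)

include hT

theorem ph_nonneg (f : L2 d) {s : ℝ} (hs : 0 ≤ s) : 0 ≤ ph T f s := by
  unfold ph
  split_ifs with h
  · positivity
  · rw [half hT f (lt_of_le_of_ne hs (Ne.symm h))]
    positivity

theorem ph_anti (f : L2 d) {s t : ℝ} (hs : 0 ≤ s) (hst : s ≤ t) : ph T f t ≤ ph T f s := by
  unfold ph
  by_cases hs0 : s = 0
  · rw [if_pos hs0]
    split_ifs with h
    · exact le_rfl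
    · exact le_norm hT f (lt_of_le_of_ne (hs.trans hst) (Ne.symm h))
  · have hs' : 0 < s := lt_of_le_of_ne hs (Ne.symm hs0)
    rw [if_neg hs0, if_neg (by linarith : t ≠ 0)]
    exact mono hT f hs' hst

theorem ph_pow {τ : ℝ} (hτ : 0 < τ) (f : L2 d) (k : ℕ) :
    ⟪f, ((T τ) ^ k) f⟫_ℝ = ph T f ((k : ℝ) * τ) := by
  cases k with
  | zero => simp [ph]
  | succ k =>
    have h : ((k + 1 : ℕ) : ℝ) * τ ≠ 0 := by positivity
    rw [pow_eq hT hτ, ph, if_neg h]
    push_cast
    rfl

theorem en_eq (hC : S_CMB) {τ c : ℝ} (hτ : 0 < τ) (hc : 0 < c) (f : L2 d) :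
    ENNReal.ofReal (√τ * en (T τ) (Real.exp (-c * τ)) f) =
      ∑' k : ℕ, ENNReal.ofReal (√τ * uu k) *
        ENNReal.ofReal (Real.exp (-c * ((k : ℝ) * τ)) * ph T f ((k : ℝ) * τ)) := by
  have hterm : ∀ k : ℕ, uu k * Real.exp (-c * τ) ^ k * ⟪f, ((T τ) ^ k) f⟫_ℝ =
      uu k * (Real.exp (-c * ((k : ℝ) * τ)) * ph T f ((k : ℝ) * τ)) := by
    intro k
    rw [ph_pow hT hτ, ← Real.exp_nat_mul, mul_assoc]
    congr 3
    ring
  have hnn : ∀ k : ℕ, 0 ≤ Real.exp (-c * ((k : ℝ) * τ)) * ph T f ((k : ℝ) * τ) := by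
    intro k
    exact mul_nonneg (Real.exp_pos _).le (ph_nonneg hT f (by positivity))
  unfold en
  rw [← tsum_mul_left, tsum_congr (fun k => by rw [hterm k])]
  rw [ENNReal.ofReal_tsum_of_nonneg]
  · refine tsum_congr fun k => ?_
    rw [← ENNReal.ofReal_mul (mul_nonneg (Real.sqrt_nonneg _) (hC.uu_nonneg k)), mul_assoc]
  · intro k
    exact mul_nonneg (Real.sqrt_nonneg _) (mul_nonneg (hC.uu_nonneg k) (hnn k))
  · refine Summable.mul_left _ ?_
    have hg : Summable (fun k : ℕ => ‖f‖ ^ 2 * Real.exp (-c * τ) ^ k) := by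
      refine Summable.mul_left _ (summable_geometric_of_lt_one (Real.exp_pos _).le ?_)
      rw [Real.exp_lt_one_iff]
      nlinarith
    refine Summable.of_nonneg_of_le (fun k => mul_nonneg (hC.uu_nonneg k) (hnn k)) (fun k => ?_) hg
    have h1 : ph T f ((k : ℝ) * τ) ≤ ‖f‖ ^ 2 := by
      have := ph_anti hT f (le_refl (0 : ℝ)) (by positivity : (0 : ℝ) ≤ (k : ℝ) * τ)
      simpa [ph] using this
    have h2 : Real.exp (-c * ((k : ℝ) * τ)) = Real.exp (-c * τ) ^ k := by
      rw [← Real.exp_nat_mul]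
      congr 1
      ring
    calc uu k * (Real.exp (-c * ((k : ℝ) * τ)) * ph T f ((k : ℝ) * τ))
        ≤ 1 * (Real.exp (-c * ((k : ℝ) * τ)) * ph T f ((k : ℝ) * τ)) :=
          mul_le_mul_of_nonneg_right (hC.uu_le k) (hnn k)
      _ = Real.exp (-c * τ) ^ k * ph T f ((k : ℝ) * τ) := by rw [one_mul, h2]
      _ ≤ Real.exp (-c * τ) ^ k * ‖f‖ ^ 2 := by gcongr
      _ = ‖f‖ ^ 2 * Real.exp (-c * τ) ^ k := mul_comm _ _

end

theorem main : Pool.Agent.N502.TM.S_SUM := by
  intro hC hA _ d _ T hT l τ c hl hτ hc f hf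
  set Φ : ℝ → ℝ≥0∞ := fun s => ENNReal.ofReal (Real.exp (-c * s) * ph T f s) with hΦ
  have hanti : AntitoneOn Φ (Ici 0) := by
    intro s hs t ht hst
    refine ENNReal.ofReal_le_ofReal ?_
    have h1 : Real.exp (-c * t) ≤ Real.exp (-c * s) := by
      rw [Real.exp_le_exp]
      nlinarith
    exact mul_le_mul h1 (ph_anti hT f hs hst) (ph_nonneg hT f ht) (Real.exp_pos _).le
  rw [en_eq hT hC hτ hc f]
  constructor
  · rw [tsum_eq_zero_add' ENNReal.summable, WW_eq hT c f hf]
    refine add_le_add ?_ ?_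
    · rw [← ENNReal.ofReal_mul (mul_nonneg (Real.sqrt_nonneg _) (hC.uu_nonneg 0))]
      refine ENNReal.ofReal_le_ofReal ?_
      simp [ph, uu]
    · have h := hA.up l τ Φ hl hτ hanti
      have e1 : ∫⁻ s in Ioi (0 : ℝ), ENNReal.ofReal (s ^ (-(1 / 2) : ℝ)) *
          ENNReal.ofReal (Real.exp (-c * s) * ⟪f, T s f⟫_ℝ) =
          ∫⁻ s in Ioi (0 : ℝ), ENNReal.ofReal (s ^ (-(1 / 2) : ℝ)) * Φ s := by
        refine setLIntegral_congr_fun measurableSet_Ioi fun s hs => ?_
        have hs' : 0 < s := hs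
        simp only [hΦ, ph, if_neg hs'.ne']
      rw [e1]
      refine le_trans (le_of_eq ?_) h
      refine tsum_congr fun k => ?_
      push_cast
      rfl
  · rw [WW_eq hT c (T τ f) (nonneg_T hT hτ f hf)]
    refine le_trans (le_of_eq ?_) (hA.low l τ Φ hl hτ hanti)
    have e1 : ∫⁻ s in Ioi (0 : ℝ), ENNReal.ofReal (s ^ (-(1 / 2) : ℝ)) *
        ENNReal.ofReal (Real.exp (-c * s) * ⟪T τ f, T s (T τ f)⟫_ℝ) =
        ∫⁻ s in Ioi (0 : ℝ), ENNReal.ofReal (Real.exp (2 * c * τ)) *
          (ENNReal.ofReal (s ^ (-(1 / 2) : ℝ)) * Φ (s + 2 * τ)) := by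
      refine setLIntegral_congr_fun measurableSet_Ioi fun s hs => ?_
      have hs' : 0 < s := hs
      have h2 : s + 2 * τ ≠ 0 := by positivity
      have h3 : ⟪T τ f, T s (T τ f)⟫_ℝ = ⟪f, T (s + 2 * τ) f⟫_ℝ := by
        rw [hT.semi s τ hs' hτ, hT.symm τ hτ, hT.semi τ _ hτ (by positivity)]
        congr 3
        ring
      have h4 : Real.exp (-c * s) = Real.exp (2 * c * τ) * Real.exp (-c * (s + 2 * τ)) := by
        rw [← Real.exp_add]
        congr 1
        ring
      simp only [hΦ, ph, if_neg h2]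
      rw [h3, h4, mul_assoc, ENNReal.ofReal_mul (Real.exp_pos _).le]
      ring
    rw [e1, lintegral_const_mul', ← mul_assoc]
    · congr 1
      rw [← ENNReal.ofReal_mul (by have := hl.pos; positivity), mul_assoc, ← Real.exp_add]
      congr 1
      have : -2 * c * τ + 2 * c * τ = 0 := by ring
      rw [this, Real.exp_zero, mul_one]
    · exact ENNReal.ofReal_ne_top

end Pool.Agent.N344.TM
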