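import Pool.Agent.N819.UD.Stm2

/-! UE/KLI: the kernel is locally indicable if cocycles kill finitely many cells (helper344).
The proof is that of `Pool.Agent.TH625.LOG.ker_li`. -/

set_option autoImplicit false

namespace Pool.Agent.N344.UEK

open Pool.Agent.TH625.LOG

theorem main : Pool.Agent.N819.UD.S_KLI := by
  intro V E A _ L ρ hcoc H hH hk hne
  classical
  by_contra hcon
  push Not at hcon
  have : Group.FG H := (Group.fg_iff_subgroup_fg H).2 hH
  obtain ⟨α, hα, P, hP⟩ := Group.fg_iff_exists_freeGroup_hom_surjective_finite.1 this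
  -- lift to the free group
  have hsurj : Function.Surjective L.pr := PresentedGroup.mk_surjective _
  choose lft hlft using hsurj
  let Q : FreeGroup α →* FreeGroup V := FreeGroup.lift fun i => lft (P (FreeGroup.of i))
  have hQ : ∀ x, L.pr (Q x) = P x := by
    intro x
    have h : L.pr.comp Q = H.subtype.comp P := by
      ext i
      show L.pr (Q (FreeGroup.of i)) = P (FreeGroup.of i)
      have h2 : Q (FreeGroup.of i) = lft (P (FreeGroup.of i)) := FreeGroup.lift_apply_of
      rw [h2, hlft]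
    exact DFunLike.congr_fun h x
  obtain ⟨T, hTK, hT⟩ := exists_finset_hom P.ker
  have hcells : ∀ x ∈ T, ∃ S : Finset (E × A), ∀ C : L.Coc ρ,
      (∀ d ∈ S, C.c d.2 (L.rel d.1) = 1) → C.c 1 (Q x) = 1 := by
    intro x hx
    refine exists_cells L ρ (Q x) ?_ 1
    have h1 : L.pr (Q x) = 1 := by
      rw [hQ, (MonoidHom.mem_ker).1 (hTK x hx)]
      rfl
    exact (PresentedGroup.mk_eq_one_iff).1 h1
  choose! S hS using hcells
  obtain ⟨C, hC⟩ := hcoc (T.biUnion S)
  have hρQ : ∀ x, ρ (L.pr (Q x)) = 1 := by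
    intro x
    rw [hQ]
    exact MonoidHom.mem_ker.1 (hk (P x).2)
  let Θ : FreeGroup α →* FreeGroup V :=
    MonoidHom.mk' (fun x => C.c 1 (Q x)) (by
      intro x y
      show C.c 1 (Q (x * y)) = C.c 1 (Q x) * C.c 1 (Q y)
      rw [map_mul, C.mul, hρQ, mul_one])
  have hΘT : ∀ x ∈ T, Θ x = 1 := by
    intro x hx
    exact hS x hx C fun d hd => hC d (Finset.mem_biUnion.2 ⟨x, hx, hd⟩)
  have hJ : Θ.range = ⊥ := by
    by_contra hJ
    obtain ⟨ψ, ⟨_, y, rfl⟩, hy⟩ := free_li Θ.range hJ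
    apply hy
    let φ : FreeGroup α →* Multiplicative ℤ := ψ.comp Θ.rangeRestrict
    have hφ : ∀ x ∈ P.ker, φ x = 1 := by
      apply hT φ
      intro x hx
      show ψ (Θ.rangeRestrict x) = 1
      have h1 : Θ.rangeRestrict x = 1 := Subtype.ext (hΘT x hx)
      rw [h1, map_one]
    let f : H →* Multiplicative ℤ :=
      P.liftOfRightInverse (Function.surjInv hP) (Function.rightInverse_surjInv hP)
        ⟨φ, fun x hx => MonoidHom.mem_ker.2 (hφ x hx)⟩
    have hf : ∀ x, f (P x) = φ x := fun x =>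
      P.liftOfRightInverse_comp_apply (Function.surjInv hP) (Function.rightInverse_surjInv hP) _ x
    have h2 := hcon f (P y)
    rw [hf] at h2
    exact h2
  apply hne
  rw [Subgroup.eq_bot_iff_forall]
  intro h hh
  obtain ⟨x, hx⟩ := hP ⟨h, hh⟩
  have h1 : Θ x = 1 := by
    have h2 : Θ x ∈ Θ.range := ⟨x, rfl⟩
    rw [hJ] at h2
    exact Subgroup.mem_bot.1 h2
  have h3 : L.pr (Q x) = 1 := by
    rw [← C.pr_c 1 (Q x)]
    have h4 : C.c 1 (Q x) = 1 := h1
    rw [h4, map_one]
  rw [hQ, hx] at h3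
  exact h3


end Pool.Agent.N344.UEK
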